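import Pool.Agent.TH679.KC.Model
import Pool.Agent.TH679.LW.Upper

/-!
The dynamic program for an automaton with counters
-/

set_option autoImplicit false
set_option linter.unusedSectionVars false

namespace Pool.Agent.TH679.KC

open Finset
open Pool.Agent.H564R3.PW (Instr runs exec)
open Pool.Agent.TH679.CF (wordSum)
open Pool.Agent.TH679.LW

/-! ### sums -/

section Sums

variable {R : Type} [CommSemiring R]

theorem sum_flat {α β : Type} (f : α → List β) (g : β → R) : ∀ l : List α,
    ((l.flatMap f).map g).sum = (l.map fun a => ((f a).map g).sum).sum := by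
  intro l
  induction l with
  | nil => rfl
  | cons a l ih =>
    rw [List.flatMap_cons, List.map_append, List.sum_append, ih, List.map_cons, List.sum_cons]

open Classical in
theorem sum_ite {α : Type} {l : List α} (h : (∀ a : R, a + a = a) ∨ l.length ≤ 1)
    (P : α → Prop) (m : R) :
    (l.map fun x => if P x then m else 0).sum = if ∃ x ∈ l, P x then m else 0 := by
  rcases h with h | h
  · induction l with
    | nil => simp
    | cons a l ih =>
      rw [List.map_cons, List.sum_cons, ih]
      by_cases h1 : P a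
      · rw [if_pos h1, if_pos (⟨a, List.mem_cons_self, h1⟩ : ∃ x ∈ a :: l, P x)]
        split_ifs
        · exact h m
        · exact add_zero m
      · rw [if_neg h1, zero_add]
        congr 1
        simp [h1]
  · rcases l with _ | ⟨a, l⟩
    · simp
    · have hl : l = [] := by
        rw [List.length_cons] at h
        exact List.length_eq_zero_iff.1 (by omega)
      subst hl
      simp

theorem sum_swap {α β : Type} (s : Finset β) (l : List α) (f : α → β → R) :
    ∑ b ∈ s, (l.map fun a => f a b).sum = (l.map fun a => ∑ b ∈ s, f a b).sum := by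
  induction l with
  | nil => simp
  | cons a l ih => simp only [List.map_cons, List.sum_cons, sum_add_distrib, ih]

end Sums

section Prog

variable {k : ℕ} {Γ Q : Type} (M : Counters k Γ Q)

/-- the new values of the counters -/
def nxt (c : Fin k → ℕ) (x : Fin k → ℤ) : Fin k → ℕ := fun i => ((c i : ℤ) + x i).toNat

/-- the possible moves -/
def moves (q : Q) (c : Fin k → ℕ) (a : Γ) : List (Q × (Fin k → ℤ)) :=
  (M.step q (fun i => c i == 0) a).filter fun x => decide (∀ i, 0 ≤ (c i : ℤ) + x.2 i)

theorem acc_cons {q : Q} {c : Fin k → ℕ} {a : Γ} {w : List Γ} :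
    M.Acc q c (a :: w) ↔ ∃ x ∈ moves M q c a, M.Acc x.1 (nxt c x.2) w := by
  unfold moves
  constructor
  · rintro ⟨x, hx, c', hc, hw⟩
    refine ⟨x, ?_, ?_⟩
    · rw [List.mem_filter]
      refine ⟨hx, ?_⟩
      rw [decide_eq_true_iff]
      intro i
      have := hc i
      omega
    · have : nxt c x.2 = c' := by
        funext i
        have := hc i
        unfold nxt
        omega
      rwa [this]
  · rintro ⟨x, hx, hw⟩
    rw [List.mem_filter, decide_eq_true_iff] at hx
    refine ⟨x, hx.1, _, fun i => ?_, hw⟩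
    have := hx.2 i
    unfold nxt
    omega

theorem moves_length {q : Q} {c : Fin k → ℕ} {a : Γ} :
    (moves M q c a).length ≤ (M.step q (fun i => c i == 0) a).length :=
  List.length_filter_le _ _

variable [Fintype Γ] {R : Type} [CommSemiring R] {n : ℕ} (hn : 0 < n)

open Classical in
/-- the sum for the words of length `j` which lead from a configuration to an accepting state, read
at the last `j` positions -/
noncomputable def val (w : Fin n × Γ → R) (j : ℕ) (q : Q) (c : Fin k → ℕ) : R :=
  ∑ x : Fin j → Γ, if M.Acc q c (List.ofFn x) then wt hn w (n - j) (List.ofFn x) else 0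

theorem val_zero (w : Fin n × Γ → R) (q : Q) (c : Fin k → ℕ) :
    val M hn w 0 q c = if M.acc q then 1 else 0 := by
  unfold val
  rw [Fintype.sum_unique]
  have e : ∀ x : Fin 0 → Γ, List.ofFn x = [] := fun x => List.ofFn_zero ..
  rw [e]
  by_cases hq : M.acc q = true
  · rw [if_pos hq, if_pos (show M.Acc q c [] from hq)]
    rfl
  · rw [if_neg hq, if_neg (show ¬ M.Acc q c [] from hq)]

theorem val_succ (h : (∀ a : R, a + a = a) ∨ M.Deterministic) (w : Fin n × Γ → R) {j : ℕ}
    (hj : j < n) (q : Q) (c : Fin k → ℕ) :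
    val M hn w (j + 1) q c = ∑ a : Γ, ((moves M q c a).map fun x =>
      val M hn w j x.1 (nxt c x.2) * w (ix hn (n - (j + 1)), a)).sum := by
  classical
  have hs : ∀ a : Γ, (∀ a : R, a + a = a) ∨ (moves M q c a).length ≤ 1 := by
    intro a
    rcases h with h | h
    · exact Or.inl h
    · exact Or.inr ((moves_length M).trans (h _ _ _))
  unfold val
  rw [← (Fin.consEquiv (fun _ : Fin (j + 1) => Γ)).sum_comp, Fintype.sum_prod_type]
  refine sum_congr rfl fun a _ => ?_
  have e0 : n - (j + 1) + 1 = n - j := by omega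
  have e1 : ∀ v : Fin j → Γ, List.ofFn (Fin.consEquiv (fun _ : Fin (j + 1) => Γ) (a, v)) =
      a :: List.ofFn v := by
    intro v
    rw [List.ofFn_succ]
    rfl
  have e2 : ∀ v : Fin j → Γ,
      (if M.Acc q c (List.ofFn (Fin.consEquiv (fun _ : Fin (j + 1) => Γ) (a, v))) then
        wt hn w (n - (j + 1)) (List.ofFn (Fin.consEquiv (fun _ : Fin (j + 1) => Γ) (a, v)))
        else 0) =
      ((moves M q c a).map fun x => if M.Acc x.1 (nxt c x.2) (List.ofFn v) then
        wt hn w (n - j) (List.ofFn v) * w (ix hn (n - (j + 1)), a) else 0).sum := by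
    intro v
    rw [sum_ite (hs a) (fun x => M.Acc x.1 (nxt c x.2) (List.ofFn v)), e1 v]
    have e3 : wt hn w (n - (j + 1)) (a :: List.ofFn v) =
        wt hn w (n - j) (List.ofFn v) * w (ix hn (n - (j + 1)), a) := by
      unfold wt
      rw [loads, List.map_cons, List.prod_cons, e0, mul_comm]
    rw [e3]
    by_cases hA : M.Acc q c (a :: List.ofFn v)
    · rw [if_pos hA, if_pos ((acc_cons M).1 hA)]
    · rw [if_neg hA, if_neg (fun h => hA ((acc_cons M).2 h))]
  rw [sum_congr rfl fun v _ => e2 v, sum_swap]
  congr 1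
  refine List.map_congr_left fun x _ => ?_
  rw [sum_mul]
  refine sum_congr rfl fun v _ => ?_
  rw [ite_mul, zero_mul]

/-- the indices: the state and the values of the counters -/
abbrev Ind (Q : Type) (k B : ℕ) : Type := Q × (Fin k → Fin (B + 1))

/-- the terms of the values -/
noncomputable def T (B : ℕ) : ℕ → Ind Q k B → List (List (Fin n × Γ) × Option (Ind Q k B))
  | 0, b => if M.acc b.1 then [([], none)] else []
  | j + 1, b => (univ : Finset Γ).toList.flatMap fun a =>
      (moves M b.1 (fun i => (b.2 i).val) a).map fun x =>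
        ([(ix hn (n - (j + 1)), a)],
          some (x.1, fun i => Fin.ofNat (B + 1) (nxt (fun i => (b.2 i).val) x.2 i)))

/-- the values -/
noncomputable def P (B : ℕ) (w : Fin n × Γ → R) : ℕ → Ind Q k B → R
  | 0, _ => 0
  | j + 1, b => ((T M hn B j b).map (tv w (P B w j))).sum

theorem P_eq (h : (∀ a : R, a + a = a) ∨ M.Deterministic) {D : ℕ}
    (hD : ∀ q z a, ∀ x ∈ M.step q z a, ∀ i, x.2 i ≤ D) (w : Fin n × Γ → R) : ∀ j ≤ n,
    ∀ (q : Q) (c : Fin k → Fin (n * D + 1)), (∀ i, (c i).val + j * D ≤ n * D) →
      P M hn (n * D) w (j + 1) (q, c) = val M hn w j q (fun i => (c i).val) := by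
  intro j
  induction j with
  | zero =>
    intro _ q c _
    rw [val_zero]
    show ((if M.acc q then [([], none)] else []).map (tv w (P M hn (n * D) w 0))).sum = _
    by_cases hq : M.acc q = true
    · rw [if_pos hq, if_pos hq, List.map_singleton, List.sum_singleton]
      exact one_mul _
    · rw [if_neg hq, if_neg hq]
      rfl
  | succ j ih =>
    intro hj q c hc
    rw [val_succ M hn h w (by omega)]
    show ((T M hn (n * D) (j + 1) (q, c)).map (tv w (P M hn (n * D) w (j + 1)))).sum = _
    rw [T, sum_flat, Finset.sum_map_toList]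
    refine sum_congr rfl fun a _ => ?_
    rw [List.map_map]
    congr 1
    refine List.map_congr_left fun x hx => ?_
    have hx' := hx
    unfold moves at hx'
    rw [List.mem_filter, decide_eq_true_iff] at hx'
    have hb : ∀ i, nxt (fun i => (c i).val) x.2 i + j * D ≤ n * D := by
      intro i
      have h1 := hD _ _ _ x hx'.1 i
      have h2 := hx'.2 i
      have h3 := hc i
      unfold nxt
      dsimp only
      have h4 : (j + 1) * D = j * D + D := by ring
      rw [h4] at h3
      omega
    have hv : ∀ i, (Fin.ofNat (n * D + 1) (nxt (fun i => (c i).val) x.2 i)).val =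
        nxt (fun i => (c i).val) x.2 i := by
      intro i
      rw [Fin.val_ofNat]
      refine Nat.mod_eq_of_lt ?_
      have := hb i
      omega
    have h5 := ih (by omega) x.1
      (fun i => Fin.ofNat (n * D + 1) (nxt (fun i => (c i).val) x.2 i)) (by
        intro i
        rw [hv]
        exact hb i)
    have h6 : (fun i => (Fin.ofNat (n * D + 1) (nxt (fun i => (c i).val) x.2 i)).val) =
        nxt (fun i => (c i).val) x.2 := funext hv
    rw [h6] at h5
    rw [← h5]
    show _ * ([w (ix hn (n - (j + 1)), a)]).prod = _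
    rw [List.prod_singleton]

theorem T_length {B N : ℕ} (hN : ∀ q z a, (M.step q z a).length ≤ N) (j : ℕ) (b : Ind Q k B) :
    (T M hn B j b).length ≤ Fintype.card Γ * N + 1 := by
  cases j with
  | zero =>
    rw [T]
    split_ifs <;> simp
  | succ j =>
    rw [T]
    have h1 := flatMap_length_le (fun a => (moves M b.1 (fun i => (b.2 i).val) a).map fun x =>
        (([(ix hn (n - (j + 1)), a)],
          some (x.1, fun i => Fin.ofNat (B + 1) (nxt (fun i => (b.2 i).val) x.2 i))) :
          List (Fin n × Γ) × Option (Ind Q k B))) N (univ : Finset Γ).toList (by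
      intro a _
      rw [List.length_map]
      exact (moves_length M).trans (hN _ _ _))
    rw [Finset.length_toList, card_univ] at h1
    omega

theorem T_term {B : ℕ} (j : ℕ) (b : Ind Q k B) : ∀ t ∈ T M hn B j b, t.1.length ≤ 1 := by
  intro t ht
  cases j with
  | zero =>
    rw [T] at ht
    split_ifs at ht
    · rw [List.mem_singleton] at ht
      rw [ht]
      exact Nat.zero_le _
    · exact absurd ht List.not_mem_nil
  | succ j =>
    rw [T, List.mem_flatMap] at ht
    obtain ⟨a, _, ht⟩ := ht
    rw [List.mem_map] at ht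
    obtain ⟨x, _, rfl⟩ := ht
    exact le_rfl

end Prog

theorem bounds {k : ℕ} {Γ Q : Type} [Finite Γ] [Finite Q] (M : Counters k Γ Q) :
    ∃ D N : ℕ, (∀ q z a, ∀ x ∈ M.step q z a, ∀ i, x.2 i ≤ D) ∧
      ∀ q z a, (M.step q z a).length ≤ N := by
  obtain ⟨D, hD⟩ := Finite.exists_le (fun t : Q × (Fin k → Bool) × Γ =>
    ((M.step t.1 t.2.1 t.2.2).map fun x => ∑ i, (x.2 i).natAbs).sum)
  obtain ⟨N, hN⟩ := Finite.exists_le (fun t : Q × (Fin k → Bool) × Γ =>
    (M.step t.1 t.2.1 t.2.2).length)
  refine ⟨D, N, ?_, fun q z a => hN (q, z, a)⟩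
  intro q z a x hx i
  have h1 : (x.2 i).natAbs ≤ ∑ i, (x.2 i).natAbs :=
    single_le_sum (f := fun i => (x.2 i).natAbs) (fun _ _ => Nat.zero_le _) (mem_univ i)
  have h2 : (∑ i, (x.2 i).natAbs) ≤ ((M.step q z a).map fun x => ∑ i, (x.2 i).natAbs).sum :=
    List.le_sum_of_mem (List.mem_map.2 ⟨x, hx, rfl⟩)
  have h3 := hD (q, z, a)
  dsimp only at h3
  omega

/-- For each automaton with `k` counters there is a constant `C` such that the sum over the words
of length `n` is computed by a program with at most `C * n ^ k` registers and `C * n ^ (k + 1)`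
steps, over each commutative semiring, if the addition is idempotent or if the automaton is
deterministic. -/
theorem upper {k : ℕ} {Γ Q : Type} [Fintype Γ] [Finite Q] (M : Counters k Γ Q) :
    ∃ C : ℕ, ∀ n : ℕ, 1 ≤ n →
    ∃ (ρ : Type) (_ : Fintype ρ) (_ : DecidableEq ρ), Fintype.card ρ ≤ C * n ^ k ∧
      ∀ (R : Type) [CommSemiring R], ((∀ a : R, a + a = a) ∨ M.Deterministic) →
        ∃ (p : List (Instr R (Fin n × Γ) ρ)) (o : ρ), p.length ≤ C * n ^ (k + 1) ∧
          ∀ w : Fin n × Γ → R, exec w p o = wordSum (Γ := Γ) M.language n w := by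
  classical
  have : Fintype Q := Fintype.ofFinite Q
  obtain ⟨D, N, hD, hN⟩ := bounds M
  obtain ⟨c, hc⟩ : ∃ c, c = Fintype.card Q * (D + 1) ^ k := ⟨_, rfl⟩
  obtain ⟨s, hs⟩ : ∃ s, s = (Fintype.card Γ * N + 1) * (2 * 1 + 2) + 3 := ⟨_, rfl⟩
  refine ⟨2 * c + 4 + 2 * (c * s), fun n hn => ?_⟩
  have hnk : 1 ≤ n ^ k := Nat.one_le_pow _ _ hn
  have hcard : Fintype.card (Ind Q k (n * D)) ≤ c * n ^ k := by
    unfold Ind
    rw [Fintype.card_prod, Fintype.card_pi_const, Fintype.card_fin, hc, mul_assoc, ← mul_pow]
    refine Nat.mul_le_mul_left _ (Nat.pow_le_pow_left ?_ _)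
    nlinarith
  refine ⟨Reg (Ind Q k (n * D)), inferInstance, inferInstance, ?_, ?_⟩
  · unfold Reg
    rw [Fintype.card_sum, Fintype.card_prod, Fintype.card_bool, Fintype.card_fin]
    nlinarith
  · intro R _ hR
    refine ⟨levels (T M hn (n * D)) (n + 1), od' (M.init, fun _ => 0), ?_, ?_⟩
    · refine (levels_length (N := Fintype.card Γ * N + 1) (M := 1)
        (fun j b => T_length M hn hN j b) (fun j b => T_term M hn j b) (n + 1)).trans ?_
      rw [← hs]
      have h1 : (n + 1) * (Fintype.card (Ind Q k (n * D)) * s) ≤ (2 * n) * (c * n ^ k * s) :=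
        Nat.mul_le_mul (by omega) (Nat.mul_le_mul_right _ hcard)
      have h2 : (2 * n) * (c * n ^ k * s) = 2 * (c * s) * n ^ (k + 1) := by ring
      have h3 : 2 * (c * s) * n ^ (k + 1) ≤ (2 * c + 4 + 2 * (c * s)) * n ^ (k + 1) :=
        Nat.mul_le_mul_right _ (by omega)
      omega
    · intro w
      have h1 := (levels_run w (T M hn (n * D)) (P M hn (n * D) w) rfl (fun _ _ => rfl)
        (n + 1)).2 (M.init, fun _ => 0)
      rw [h1, P_eq M hn hR hD w n le_rfl M.init (fun _ => 0) (by intro i; simp)]
      unfold val wordSum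
      rw [← sum_filter]
      refine sum_congr ?_ fun x _ => ?_
      · rfl
      · rw [Nat.sub_self, wt_ofFn]
        refine prod_congr rfl fun t _ => ?_
        have e : ix hn (0 + t.val) = t := by
          unfold ix
          refine Fin.ext ?_
          show (0 + t.val) % n = t.val
          rw [zero_add]
          exact Nat.mod_eq_of_lt t.2
        rw [e]

end Pool.Agent.TH679.KC
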