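import Pool.Agent.TH679.KC.Main

/-!
The asymptotic form
-/

set_option autoImplicit false

namespace Pool.Agent.TH679.KC

open Pool.Agent.TH679.PL (kap kap_ge clog_le_logb)

open Filter Asymptotics in
theorem exists_large (k : ℕ) (ε δ : ℝ) (hε : 0 < ε) (hδ : 0 < δ) : ∃ ν₀ : ℝ, ∀ ν ≥ ν₀,
    ν ^ 2 + 2 ≤ (2 : ℝ) ^ (ε / 4 * ν) ∧
      13 * (k : ℝ) ^ 3 * ν ^ 2 ≤ (2 : ℝ) ^ (δ / 16 * ν - 1) ∧
      100 / δ ≤ ν ∧ 16 ≤ ν := by
  obtain ⟨ν₁, h1⟩ := Pool.Agent.TH679.CF.exists_large ε hε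
  have hb : 0 < δ / 16 * Real.log 2 := mul_pos (by linarith) (Real.log_pos (by norm_num))
  have h2 : (fun x : ℝ => (26 * (k : ℝ) ^ 3) * x ^ 2) =o[atTop]
      fun x => Real.exp (δ / 16 * Real.log 2 * x) :=
    IsLittleO.const_mul_left (isLittleO_pow_exp_pos_mul_atTop 2 hb) (26 * (k : ℝ) ^ 3)
  have h3 := h2.bound (c := 1) one_pos
  obtain ⟨ν₂, h4⟩ := eventually_atTop.1 h3
  refine ⟨max (max ν₁ ν₂) (max (100 / δ) 16), fun ν hν => ⟨?_, ?_, ?_, ?_⟩⟩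
  · exact (h1 ν (le_trans (le_trans (le_max_left _ _) (le_max_left _ _)) hν)).1
  · have h5 := h4 ν (le_trans (le_trans (le_max_right _ _) (le_max_left _ _)) hν)
    rw [one_mul, Real.norm_eq_abs, Real.norm_eq_abs, abs_of_pos (Real.exp_pos _)] at h5
    have h6 := (le_abs_self _).trans h5
    have h7 : (2 : ℝ) ^ (δ / 16 * ν - 1) = Real.exp (δ / 16 * Real.log 2 * ν) / 2 := by
      rw [Real.rpow_sub (by norm_num), Real.rpow_one, Real.rpow_def_of_pos (by norm_num)]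
      congr 2
      ring
    rw [h7]
    linarith
  · exact le_trans (le_trans (le_max_left _ _) (le_max_right _ _)) hν
  · exact le_trans (le_trans (le_max_right _ _) (le_max_right _ _)) hν

theorem steps_ge {k : ℕ} (hk : 1 ≤ k) {δ : ℝ} (hδ : 0 < δ) (hδ2 : k * δ ≤ 1) {n K L : ℕ}
    (g1 : Real.logb 2 n ^ 2 + 2 ≤ (2 : ℝ) ^ (k * δ / 4 * Real.logb 2 n))
    (g4 : 13 * (k : ℝ) ^ 3 * Real.logb 2 n ^ 2 ≤ (2 : ℝ) ^ (δ / 16 * Real.logb 2 n - 1))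
    (g2 : 100 / δ ≤ Real.logb 2 n) (g3 : 16 ≤ Real.logb 2 n) (hn : 1 ≤ n) (hL : 1 ≤ L)
    (hK : (K : ℝ) ≤ (n : ℝ) ^ (k - k * δ))
    (hlaw : ∀ h q : ℕ, 1 ≤ h → 1 ≤ q → 13 * k ^ 3 * h ^ 2 * q * 2 ^ h ≤ n →
      (2 ^ (k * h)) ^ kap q ≤ 2 * L * ((Nat.clog 2 L + 1) * K) ^ kap q) :
    (n : ℝ) ^ (k * δ ^ 2 / 400 * Real.logb 2 n) ≤ L := by
  by_contra hlt
  push Not at hlt
  obtain ⟨ν, hν⟩ : ∃ ν, ν = Real.logb 2 n := ⟨_, rfl⟩
  rw [← hν] at g1 g2 g3 g4 hlt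
  have hn0 : (0 : ℝ) < n := by exact_mod_cast hn
  have hk1 : (1 : ℝ) ≤ k := by exact_mod_cast hk
  have hδ1 : δ ≤ 1 := by nlinarith
  have hn2 : (n : ℝ) = 2 ^ ν := by
    rw [hν]
    exact (Real.rpow_logb (by norm_num) (by norm_num) hn0).symm
  have hν0 : 0 < ν := by linarith
  have hεν : 100 ≤ δ * ν := by
    rw [div_le_iff₀ hδ] at g2
    linarith
  obtain ⟨s, hs⟩ : ∃ s, s = ⌊δ / 8 * ν⌋₊ := ⟨_, rfl⟩
  have hs1 : (s : ℝ) ≤ δ / 8 * ν := by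
    rw [hs]
    exact Nat.floor_le (by positivity)
  have hs2 : δ / 8 * ν < s + 1 := by
    rw [hs]
    exact Nat.lt_floor_add_one _
  obtain ⟨B, hB⟩ : ∃ B, B = ⌊ν⌋₊ := ⟨_, rfl⟩
  have hB1 : (B : ℝ) ≤ ν := by
    rw [hB]
    exact Nat.floor_le hν0.le
  have hB2 : ν < B + 1 := by
    rw [hB]
    exact Nat.lt_floor_add_one _
  have hsB : s + 1 ≤ B := by
    have h1 : (s : ℝ) + 1 ≤ B := by nlinarith
    exact_mod_cast h1
  obtain ⟨h, hh⟩ : ∃ h, h = B - s := ⟨_, rfl⟩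
  have hh' : h + s = B := by omega
  have hh1 : 1 ≤ h := by omega
  obtain ⟨t, ht⟩ : ∃ t, t = s / 2 := ⟨_, rfl⟩
  obtain ⟨t', ht'⟩ : ∃ t', t' = s - t := ⟨_, rfl⟩
  have htt : t + t' = s := by omega
  have ht2 : s ≤ 2 * t' := by omega
  have hBn : 2 ^ B ≤ n := by
    have h1 : ((2 ^ B : ℕ) : ℝ) ≤ (n : ℝ) := by
      rw [hn2]
      push_cast
      rw [← Real.rpow_natCast]
      exact Real.rpow_le_rpow_of_exponent_le (by norm_num) hB1
    exact_mod_cast h1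
  have hfit : 13 * k ^ 3 * h ^ 2 * 2 ^ t * 2 ^ h ≤ n := by
    refine le_trans ?_ hBn
    have h1 : 13 * k ^ 3 * h ^ 2 ≤ 2 ^ t' := by
      have h2 : ((13 * k ^ 3 * h ^ 2 : ℕ) : ℝ) ≤ ((2 ^ t' : ℕ) : ℝ) := by
        push_cast
        have h3 : (h : ℝ) ≤ ν := by
          have : (h : ℝ) + s = B := by exact_mod_cast hh'
          have : (0 : ℝ) ≤ s := Nat.cast_nonneg _
          linarith
        have h4 : (h : ℝ) ^ 2 ≤ ν ^ 2 := pow_le_pow_left₀ (Nat.cast_nonneg _) h3 2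
        have h40 : 13 * (k : ℝ) ^ 3 * (h : ℝ) ^ 2 ≤ 13 * (k : ℝ) ^ 3 * ν ^ 2 :=
          mul_le_mul_of_nonneg_left h4 (by positivity)
        have h5 : (2 : ℝ) ^ (δ / 16 * ν - 1) ≤ (2 : ℝ) ^ t' := by
          rw [← Real.rpow_natCast]
          refine Real.rpow_le_rpow_of_exponent_le (by norm_num) ?_
          have h6 : (s : ℝ) ≤ 2 * t' := by exact_mod_cast ht2
          linarith
        linarith
      exact_mod_cast h2
    calc 13 * k ^ 3 * h ^ 2 * 2 ^ t * 2 ^ h ≤ 2 ^ t' * 2 ^ t * 2 ^ h :=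
          Nat.mul_le_mul_right _ (Nat.mul_le_mul_right _ h1)
      _ = 2 ^ B := by
          rw [← pow_add, ← pow_add]
          congr 1
          omega
  obtain ⟨κ, hκ⟩ : ∃ κ, κ = kap (2 ^ t) := ⟨_, rfl⟩
  have hl := hlaw h (2 ^ t) hh1 Nat.one_le_two_pow hfit
  rw [← hκ] at hl
  have hκ1 : δ / 64 * ν ≤ κ := by
    have h1 : (t : ℝ) / 2 - 1 ≤ κ := by
      rw [hκ]
      refine kap_ge ?_
      rw [Real.rpow_natCast]
      push_cast
      exact le_rfl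
    have h2 : s ≤ 2 * t + 1 := by omega
    have h3 : (s : ℝ) ≤ 2 * t + 1 := by exact_mod_cast h2
    nlinarith
  have hL0 : (0 : ℝ) < L := by exact_mod_cast hL
  have hLlog : Real.logb 2 L ≤ k * δ ^ 2 / 400 * ν ^ 2 := by
    rw [Real.logb_le_iff_le_rpow (by norm_num) hL0]
    refine hlt.le.trans (le_of_eq ?_)
    rw [hn2, ← Real.rpow_mul (by norm_num)]
    congr 1
    ring
  have hclog : (Nat.clog 2 L : ℝ) + 1 ≤ ν ^ 2 + 2 := by
    have e1 := clog_le_logb hL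
    have e3 : k * δ ^ 2 ≤ 1 := by nlinarith
    have e2 : k * δ ^ 2 / 400 * ν ^ 2 ≤ 1 * ν ^ 2 :=
      mul_le_mul_of_nonneg_right (by linarith) (sq_nonneg ν)
    linarith
  have hx : ((((Nat.clog 2 L + 1) * K : ℕ)) : ℝ) ≤ 2 ^ ((k - 3 * (k * δ) / 4) * ν) := by
    push_cast
    have e0 : (K : ℝ) ≤ 2 ^ ((k - k * δ) * ν) := by
      refine hK.trans (le_of_eq ?_)
      rw [hn2, ← Real.rpow_mul (by norm_num), mul_comm]
    have e1 : ((Nat.clog 2 L : ℝ) + 1) * K ≤ (ν ^ 2 + 2) * 2 ^ ((k - k * δ) * ν) :=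
      mul_le_mul hclog e0 (Nat.cast_nonneg _) (by positivity)
    have e3 : (2 : ℝ) ^ ((k - 3 * (k * δ) / 4) * ν) =
        2 ^ (k * δ / 4 * ν) * 2 ^ ((k - k * δ) * ν) := by
      rw [← Real.rpow_add (by norm_num)]
      congr 1
      ring
    rw [e3]
    exact e1.trans (mul_le_mul_of_nonneg_right g1 (by positivity))
  have hm2 : (2 : ℝ) ^ ((k - k * δ / 2) * ν) ≤ ((2 ^ (k * h) : ℕ) : ℝ) := by
    have e1 : ((2 ^ (k * h) : ℕ) : ℝ) = 2 ^ ((k * h : ℕ) : ℝ) := by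
      rw [Real.rpow_natCast]
      push_cast
      rfl
    rw [e1]
    refine Real.rpow_le_rpow_of_exponent_le (by norm_num) ?_
    have e2 : (h : ℝ) + s = B := by exact_mod_cast hh'
    push_cast
    have e3 : (1 - δ / 2) * ν ≤ h := by nlinarith
    have e4 : (k : ℝ) * ((1 - δ / 2) * ν) ≤ k * h := mul_le_mul_of_nonneg_left e3 (by linarith)
    linarith
  have hlaw' : ((2 : ℝ) ^ ((k - k * δ / 2) * ν)) ^ κ ≤
      2 * L * (2 ^ ((k - 3 * (k * δ) / 4) * ν)) ^ κ := by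
    have e1 : ((((2 ^ (k * h)) ^ κ : ℕ)) : ℝ) ≤
        ((2 * L * ((Nat.clog 2 L + 1) * K) ^ κ : ℕ) : ℝ) := by
      exact_mod_cast hl
    rw [Nat.cast_pow (2 ^ (k * h)) κ, Nat.cast_mul (2 * L),
      Nat.cast_pow ((Nat.clog 2 L + 1) * K) κ, Nat.cast_mul 2 L, Nat.cast_ofNat] at e1
    refine (pow_le_pow_left₀ (by positivity) hm2 κ).trans (e1.trans ?_)
    refine mul_le_mul_of_nonneg_left ?_ (by positivity)
    exact pow_le_pow_left₀ (Nat.cast_nonneg _) hx κ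
  have hfin : k * δ / 4 * ν * κ ≤ 1 + k * δ ^ 2 / 400 * ν ^ 2 := by
    have e1 : ((2 : ℝ) ^ ((k - k * δ / 2) * ν)) ^ κ =
        2 ^ (k * δ / 4 * ν * κ) * (2 ^ ((k - 3 * (k * δ) / 4) * ν)) ^ κ := by
      rw [← Real.rpow_natCast, ← Real.rpow_natCast, ← Real.rpow_mul (by norm_num),
        ← Real.rpow_mul (by norm_num), ← Real.rpow_add (by norm_num)]
      congr 1
      ring
    rw [e1] at hlaw'
    have e2 : (2 : ℝ) ^ (k * δ / 4 * ν * κ) ≤ 2 * L := le_of_mul_le_mul_right hlaw' (by positivity)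
    have e3 : Real.logb 2 ((2 : ℝ) ^ (k * δ / 4 * ν * κ)) ≤ Real.logb 2 (2 * L) :=
      Real.logb_le_logb_of_le (by norm_num) (by positivity) e2
    rw [Real.logb_rpow (by norm_num) (by norm_num), Real.logb_mul (by norm_num) hL0.ne',
      Real.logb_self_eq_one (by norm_num)] at e3
    linarith
  have e1 : k * δ / 4 * ν * (δ / 64 * ν) ≤ k * δ / 4 * ν * κ :=
    mul_le_mul_of_nonneg_left hκ1 (by positivity)
  have e2 : 100 * 100 ≤ (δ * ν) * (δ * ν) := mul_le_mul hεν hεν (by norm_num) (by positivity)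
  have e3 : 1 * ((δ * ν) * (δ * ν)) ≤ k * ((δ * ν) * (δ * ν)) :=
    mul_le_mul_of_nonneg_right hk1 (by positivity)
  nlinarith

end Pool.Agent.TH679.KC
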