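import Pool.Agent.TH679.KC.Model

/-!
The machine: the counters contain the bits of a sliding window of a sequence
-/

set_option autoImplicit false

namespace Pool.Agent.TH679.KC

/-- the letters: `p a b` (new color `a`, previous color `b`), `n s` (a cell of the parity `s`), `e`
(adds a carry), `sep` (next counter), `r a b` (new color `a`, dropped color `b`), `pad` -/
inductive Let : Type
  | p (a b : Bool)
  | n (s : Bool)
  | e
  | sep
  | r (a b : Bool)
  | pad
  deriving DecidableEq, Fintype

/-- the states -/
inductive St (k : ℕ) : Type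
  | wait (par x : Bool)
  | search (par a y : Bool) (j : Fin (k + 1))
  | count (par a y s : Bool) (j : Fin (k + 1))
  deriving DecidableEq, Fintype

/-- the change of the counter `j` by `z` -/
def mv {k : ℕ} (j : Fin (k + 1)) (z : ℤ) : Fin (k + 1) → ℤ := fun i => if i = j then z else 0

/-- the moves -/
def stp (k : ℕ) : St k → (Fin (k + 1) → Bool) → Let → List (St k × (Fin (k + 1) → ℤ))
  | .wait par x, _, .pad => [(.wait par x, fun _ => 0)]
  | .wait par x, _, .p a b => if b = x then [(.search par a a 0, fun _ => 0)] else []
  | .search par a y j, z, .n s =>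
      if z j then [(.count par a y s j, fun _ => 0)] else [(.search par a y j, mv j (-1))]
  | .count par a y s j, _, .n t => [(.count par a y s j, if t then fun _ => 0 else mv j 1)]
  | .count par a y s j, _, .e =>
      [(.count par a y s j, if xor y (!par) then mv j 1 else fun _ => 0)]
  | .count par a _ s j, _, .sep =>
      if h : j.val + 1 < k + 1 then [(.search par a (xor s par) ⟨j.val + 1, h⟩, fun _ => 0)] else []
  | .count par a _ s j, _, .r a' b =>
      if j.val = k ∧ a' = a ∧ b = xor s par then [(.wait (!par) a, fun _ => 0)] else []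
  | _, _, _ => []

/-- the machine -/
def mach (k : ℕ) : Counters (k + 1) Let (St k) where
  init := .wait false false
  acc q := match q with
    | .wait _ _ => true
    | _ => false
  step := stp k

theorem mach_det (k : ℕ) : (mach k).Deterministic := by
  intro q z a
  show (stp k q z a).length ≤ 1
  cases q <;> cases a <;> simp only [stp] <;> (try split_ifs) <;> simp

theorem mv_unit {k : ℕ} (j : Fin (k + 1)) (z : ℤ) (hz : |z| ≤ 1) :
    ∃ l, ∀ i, |mv j z i| ≤ if i = l then 1 else 0 := by
  refine ⟨j, fun i => ?_⟩
  unfold mv
  split_ifs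
  · exact hz
  · simp

theorem zero_unit {k : ℕ} : ∃ l : Fin (k + 1), ∀ i : Fin (k + 1),
    |(fun _ => (0 : ℤ) : Fin (k + 1) → ℤ) i| ≤ if i = l then 1 else 0 := by
  refine ⟨0, fun i => ?_⟩
  split_ifs <;> simp

theorem mach_unit (k : ℕ) : (mach k).UnitSteps := by
  intro q z a x hx
  replace hx : x ∈ stp k q z a := hx
  cases q <;> cases a <;> simp only [stp] at hx <;> (try split_ifs at hx) <;>
    first
    | exact absurd hx List.not_mem_nil
    | (rw [List.mem_singleton] at hx; subst hx; exact zero_unit)
    | (rw [List.mem_singleton] at hx; subst hx; exact mv_unit _ _ (by norm_num))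

section Moves

variable {k : ℕ}

/-- a single move without a change -/
theorem acc_stay {q q' : St k} {c : Fin (k + 1) → ℕ} {a : Let} {w : List Let}
    (h : stp k q (fun i => c i == 0) a = [(q', fun _ => 0)]) :
    (mach k).Acc q c (a :: w) ↔ (mach k).Acc q' c w := by
  show (∃ x ∈ stp k q (fun i => c i == 0) a, ∃ c' : Fin (k + 1) → ℕ,
      (∀ i, (c' i : ℤ) = c i + x.2 i) ∧ (mach k).Acc x.1 c' w) ↔ _
  rw [h]
  constructor
  · rintro ⟨x, hx, c', hc, hw⟩
    rw [List.mem_singleton] at hx
    subst hx
    have : c' = c := by
      funext i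
      have := hc i
      simpa using this
    rwa [this] at hw
  · intro hw
    exact ⟨_, List.mem_singleton.2 rfl, c, fun i => by simp, hw⟩

theorem acc_none {q : St k} {c : Fin (k + 1) → ℕ} {a : Let} {w : List Let}
    (h : stp k q (fun i => c i == 0) a = []) : ¬ (mach k).Acc q c (a :: w) := by
  rintro ⟨x, hx, _⟩
  replace hx : x ∈ stp k q (fun i => c i == 0) a := hx
  rw [h] at hx
  exact absurd hx List.not_mem_nil

theorem acc_inc {q q' : St k} {c : Fin (k + 1) → ℕ} {a : Let} {w : List Let} {j : Fin (k + 1)}
    (h : stp k q (fun i => c i == 0) a = [(q', mv j 1)]) :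
    (mach k).Acc q c (a :: w) ↔ (mach k).Acc q' (Function.update c j (c j + 1)) w := by
  show (∃ x ∈ stp k q (fun i => c i == 0) a, ∃ c' : Fin (k + 1) → ℕ,
      (∀ i, (c' i : ℤ) = c i + x.2 i) ∧ (mach k).Acc x.1 c' w) ↔ _
  rw [h]
  constructor
  · rintro ⟨x, hx, c', hc, hw⟩
    rw [List.mem_singleton] at hx
    subst hx
    have : c' = Function.update c j (c j + 1) := by
      funext i
      have := hc i
      by_cases hi : i = j
      · subst hi
        rw [Function.update_self]
        simp only [mv, if_pos] at this
        omega
      · rw [Function.update_of_ne hi]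
        simp only [mv, if_neg hi] at this
        omega
    rwa [this] at hw
  · intro hw
    refine ⟨_, List.mem_singleton.2 rfl, _, fun i => ?_, hw⟩
    by_cases hi : i = j
    · subst hi
      rw [Function.update_self]
      simp [mv]
    · rw [Function.update_of_ne hi]
      simp [mv, hi]

theorem acc_dec {q q' : St k} {c : Fin (k + 1) → ℕ} {a : Let} {w : List Let} {j : Fin (k + 1)}
    (h : stp k q (fun i => c i == 0) a = [(q', mv j (-1))]) (hj : c j ≠ 0) :
    (mach k).Acc q c (a :: w) ↔ (mach k).Acc q' (Function.update c j (c j - 1)) w := by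
  show (∃ x ∈ stp k q (fun i => c i == 0) a, ∃ c' : Fin (k + 1) → ℕ,
      (∀ i, (c' i : ℤ) = c i + x.2 i) ∧ (mach k).Acc x.1 c' w) ↔ _
  rw [h]
  constructor
  · rintro ⟨x, hx, c', hc, hw⟩
    rw [List.mem_singleton] at hx
    subst hx
    have : c' = Function.update c j (c j - 1) := by
      funext i
      have := hc i
      by_cases hi : i = j
      · subst hi
        rw [Function.update_self]
        simp only [mv, if_pos] at this
        omega
      · rw [Function.update_of_ne hi]
        simp only [mv, if_neg hi] at this
        omega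
    rwa [this] at hw
  · intro hw
    refine ⟨_, List.mem_singleton.2 rfl, _, fun i => ?_, hw⟩
    by_cases hi : i = j
    · subst hi
      rw [Function.update_self]
      simp only [mv, if_pos]
      omega
    · rw [Function.update_of_ne hi]
      simp [mv, hi]

variable {par x a b y s t : Bool} {j : Fin (k + 1)} {c : Fin (k + 1) → ℕ} {w : List Let}

theorem acc_pad : (mach k).Acc (.wait par x) c (.pad :: w) ↔ (mach k).Acc (.wait par x) c w :=
  acc_stay rfl

theorem acc_p : (mach k).Acc (.wait par x) c (.p a b :: w) ↔
    b = x ∧ (mach k).Acc (.search par a a 0) c w := by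
  by_cases h : b = x
  · rw [acc_stay (q' := .search par a a 0) (by simp [stp, h])]
    simp [h]
  · constructor
    · intro h'
      exact absurd h' (acc_none (by simp [stp, h]))
    · intro h'
      exact absurd h'.1 h

theorem acc_search_zero (hj : c j = 0) : (mach k).Acc (.search par a y j) c (.n s :: w) ↔
    (mach k).Acc (.count par a y s j) c w :=
  acc_stay (by simp [stp, hj])

theorem acc_search_pos (hj : c j ≠ 0) : (mach k).Acc (.search par a y j) c (.n s :: w) ↔
    (mach k).Acc (.search par a y j) (Function.update c j (c j - 1)) w :=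
  acc_dec (by simp [stp, hj]) hj

theorem acc_count_even : (mach k).Acc (.count par a y s j) c (.n false :: w) ↔
    (mach k).Acc (.count par a y s j) (Function.update c j (c j + 1)) w :=
  acc_inc (by simp [stp])

theorem acc_count_odd : (mach k).Acc (.count par a y s j) c (.n true :: w) ↔
    (mach k).Acc (.count par a y s j) c w :=
  acc_stay (by simp [stp])

theorem acc_count_e : (mach k).Acc (.count par a y s j) c (.e :: w) ↔
    (mach k).Acc (.count par a y s j)
      (Function.update c j (c j + if xor y (!par) then 1 else 0)) w := by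
  by_cases h : xor y (!par) = true
  · rw [if_pos h]
    exact acc_inc (by simp only [stp, h, if_true])
  · rw [if_neg h, add_zero, Function.update_eq_self]
    refine acc_stay ?_
    simp only [stp]
    rw [if_neg h]

theorem acc_sep (h : j.val + 1 < k + 1) : (mach k).Acc (.count par a y s j) c (.sep :: w) ↔
    (mach k).Acc (.search par a (xor s par) ⟨j.val + 1, h⟩) c w :=
  acc_stay (by simp only [stp, dif_pos h])

theorem acc_r {a' : Bool} (h : j.val = k) : (mach k).Acc (.count par a y s j) c (.r a' b :: w) ↔
    a' = a ∧ b = xor s par ∧ (mach k).Acc (.wait (!par) a) c w := by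
  by_cases h' : a' = a ∧ b = xor s par
  · rw [acc_stay (q' := .wait (!par) a) (by simp only [stp]; rw [if_pos ⟨h, h'⟩])]
    exact ⟨fun h2 => ⟨h'.1, h'.2, h2⟩, fun h2 => h2.2.2⟩
  · constructor
    · intro h2
      exact absurd h2 (acc_none (by simp only [stp]; rw [if_neg (fun h3 => h' h3.2)]))
    · intro h2
      exact absurd ⟨h2.1, h2.2.1⟩ h'

theorem acc_nil : (mach k).Acc (.wait par x) c [] := rfl

end Moves

end Pool.Agent.TH679.KC
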