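import Pool.Agent.TH679.KC.Words
import Pool.Agent.TH679.CF.Laws

/-!
The lower bound
-/

set_option autoImplicit false

namespace Pool.Agent.TH679.KC

open Finset
open scoped NNReal
open Pool.Agent.H564R3.PW (Instr runs exec syms)
open Pool.Agent.H564R3.TS
open Pool.Agent.TH679.SP (Pos lft rgt ce cset mem_cset)
open Pool.Agent.TH679.TG (sub img Ok syms_sub)
open Pool.Agent.TH679.PL (kap kap_ge clog_le_logb)
open Pool.Agent.TH679.CF (fam mem_fam SolvesMin SolvesSum good_min good_sum good_len col)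
open Pool.Agent.TH679.LW

/-- the pattern with `m` additional letters -/
def padded (S k e m : ℕ) : List (Slot Let (Pos S × Fin 2 × Fin 2)) :=
  (List.replicate m Let.pad).map forced ++ pat S k e 0 (S + dim k e)

theorem padded_length (S k e m : ℕ) : (padded S k e m).length =
    m + (S + dim k e) * (3 * 2 ^ e * (k + 1) + k + 2) := by
  unfold padded
  rw [List.length_append, List.length_map, List.length_replicate, pat_length]

theorem acc_pads {k : ℕ} {par x : Bool} {c : Fin (k + 1) → ℕ} {w : List Let} (m : ℕ) :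
    (mach k).Acc (.wait par x) c (List.replicate m Let.pad ++ w) ↔
      (mach k).Acc (.wait par x) c w := by
  induction m with
  | zero => rfl
  | succ m ih => rw [List.replicate_succ, List.cons_append, acc_pad, ih]

theorem num_false (e : ℕ) : num e (fun _ => false) = 0 := by
  induction e with
  | zero => rfl
  | succ e ih =>
    rw [num, ih]
    rfl

theorem cfg_init (k e : ℕ) (χ : ℕ → Bool) :
    cfg k e false (seqAt χ 0) (seqAt χ 0) 0 = fun _ => 0 := by
  funext l
  have h : part e l.val (seqAt χ 0) = fun _ => false := by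
    funext i
    unfold part seqAt
    rw [if_neg (Nat.not_lt_zero _)]
  unfold cfg
  rw [if_neg (Nat.not_lt_zero _), h, num_false]
  rfl

theorem padded_word {S k e m : ℕ} (χ : ℕ → Bool) :
    ∃ w, Al (padded S k e m) w ∧ w ∈ (mach k).language ∧
      vars (padded S k e m) w = cvs S k e χ 0 (S + dim k e) := by
  refine ⟨List.replicate m Let.pad ++ word k e χ 0 (S + dim k e), ?_, ?_, ?_⟩
  · exact (al_forced _).append (al_word χ _ _)
  · show (mach k).Acc (.wait false false) (fun _ => 0) _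
    rw [acc_pads]
    have h := acc_word (k := k) (e := e) χ (S + dim k e) 0 false
    rw [cfg_init] at h
    exact h
  · unfold padded
    rw [vars_append _ _ _ _ (by simp), vars_forced, List.nil_append, vars_word]

theorem padded_inv {S k e m : ℕ} {w : List Let} (hw : Al (padded S k e m) w)
    (hL : w ∈ (mach k).language) :
    ∃ χ : ℕ → Bool, vars (padded S k e m) w = cvs S k e χ 0 (S + dim k e) := by
  have hw' := hw
  unfold padded at hw'
  obtain ⟨u, v, rfl, a1, a2⟩ := Al.split hw'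
  have hu := al_forced_inv a1
  subst hu
  have h : (mach k).Acc (.wait false false) (fun _ => 0) (List.replicate m Let.pad ++ v) := hL
  rw [acc_pads] at h
  obtain ⟨χ, -, rfl⟩ := word_inv (S + dim k e) 0 false (fun _ => false) v a2 (by
    rw [cfg_init]
    exact h)
  refine ⟨χ, ?_⟩
  unfold padded
  rw [vars_append _ _ _ _ (by simp), vars_forced, List.nil_append, vars_word]

theorem law {R ρ : Type} [Semiring R] [Nontrivial R] [Fintype ρ] [DecidableEq ρ]
    {S k e q n : ℕ} (hd : 1 ≤ dim k e) (hS : 4 * dim k e * dim k e * q ≤ S)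
    (hn : (S + dim k e) * (3 * 2 ^ e * (k + 1) + k + 2) ≤ n)
    (p : List (Instr R (Fin n × Let) ρ)) (o : ρ)
    (g1 : ∀ A ∈ fam (Γ := Let) (mach k).language n, ind A ∈ syms p o)
    (g2 : ∀ u ∈ syms p o, ∃ A ∈ fam (Γ := Let) (mach k).language n, ∀ x ∈ A, u x ≠ 0)
    (hp : 1 ≤ p.length) :
    (2 ^ dim k e) ^ kap q ≤
      2 * p.length * ((Nat.clog 2 p.length + 1) * Fintype.card ρ) ^ kap q := by
  classical
  obtain ⟨m, hm⟩ : ∃ m, m = n - (S + dim k e) * (3 * 2 ^ e * (k + 1) + k + 2) := ⟨_, rfl⟩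
  obtain ⟨l, hl⟩ : ∃ l, l = padded S k e m := ⟨_, rfl⟩
  have hln : l.length = n := by
    rw [hl, padded_length]
    omega
  subst hln
  have hlen : (p.map (sub (R := R) (ρ := ρ) fun x : Fin l.length × Let =>
    l.get x.1 x.2)).length = p.length := List.length_map ..
  rw [← hlen]
  have key := transfer (A := (mach k).language) l
    (univ.image (cset (m := 2) (lft (S := S) hd) (rgt hd))) (by
      intro C hC
      rw [mem_image] at hC
      obtain ⟨χ', _, rfl⟩ := hC
      obtain ⟨χ, hχ⟩ : ∃ χ : ℕ → Bool, ∀ a, χ a =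
          if ha : a < S + dim k e then decide (χ' ⟨a, ha⟩ = 1) else false := ⟨_, fun _ => rfl⟩
      have hcol : (fun a : Fin (S + dim k e) => col (χ a.val)) = χ' := by
        funext a
        rw [hχ, dif_pos a.2]
        show col (decide (χ' a = 1)) = χ' a
        generalize χ' a = z
        fin_cases z <;> rfl
      obtain ⟨w, a1, a2, a3⟩ := padded_word (S := S) (k := k) (e := e) (m := m) χ
      rw [← hl] at a1 a3
      refine ⟨w, a1, a2, ?_⟩
      intro y
      have hc := count_full (S := S) hd χ y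
      rw [hcol] at hc
      rw [a3]
      refine Eq.trans ?_ (hc.trans ?_)
      · congr 1
        exact lawful_beq_subsingleton _ _
      · simp only [mem_cset]) (by
      intro w hAl hw
      rw [hl] at hAl
      obtain ⟨χ, hχ⟩ := padded_inv hAl hw
      rw [← hl] at hχ
      refine ⟨_, mem_image_of_mem _ (mem_univ (fun a => col (χ a.val))), ?_⟩
      intro y hy
      rw [mem_cset] at hy
      have h1 : (cvs S k e χ 0 (S + dim k e)).count y = 1 := by
        rw [count_full hd, if_pos hy]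
      rw [hχ]
      exact List.count_pos_iff.1 (by omega)) p o g1 g2
  exact Pool.Agent.TH679.SP.law (S := S) (d := dim k e) (m := 2) (n := q) (by norm_num) hd hS
    (p.map (sub fun x => l.get x.1 x.2)) o key.1 key.2 (by rw [hlen]; exact hp)

theorem fam_nonempty {S k e n : ℕ}
    (hn : (S + dim k e) * (3 * 2 ^ e * (k + 1) + k + 2) ≤ n) :
    (fam (Γ := Let) (mach k).language n).Nonempty := by
  obtain ⟨m, hm⟩ : ∃ m, m = n - (S + dim k e) * (3 * 2 ^ e * (k + 1) + k + 2) := ⟨_, rfl⟩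
  obtain ⟨w, h1, h2, _⟩ := padded_word (S := S) (k := k) (e := e) (m := m) (fun _ => false)
  have hwl : w.length = n := by
    rw [← h1.length_eq, padded_length]
    omega
  subst hwl
  exact ⟨_, mem_fam.2 ⟨fun i => w.get i, by rw [List.ofFn_get]; exact h2, rfl⟩⟩

theorem size_le {k e q n : ℕ} (hq : 1 ≤ q)
    (hn : 13 * (k + 1) ^ 3 * (e + 1) ^ 2 * q * 2 ^ (e + 1) ≤ n) :
    (4 * dim k e * dim k e * q + dim k e) * (3 * 2 ^ e * (k + 1) + k + 2) ≤ n := by
  refine le_trans ?_ hn
  obtain ⟨P, hP⟩ : ∃ P, P = 2 ^ e := ⟨_, rfl⟩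
  have hP1 : 1 ≤ P := by rw [hP]; exact Nat.one_le_two_pow
  obtain ⟨K, hK⟩ : ∃ K, K = k + 1 := ⟨_, rfl⟩
  obtain ⟨E, hE⟩ : ∃ E, E = e + 1 := ⟨_, rfl⟩
  have e0 : dim k e = K * E := by rw [hK, hE]
  have e1 : 2 ^ (e + 1) = 2 * P := by rw [hP, pow_succ]; ring
  have e2 : 3 * 2 ^ e * (k + 1) + k + 2 = 3 * P * K + K + 1 := by rw [hP, hK]; ring
  rw [e0, e1, e2, ← hK, ← hE]
  have hK1 : 1 ≤ K := by omega
  have hE1 : 1 ≤ E := by omega
  have h1 : 1 ≤ K * E := Nat.mul_pos hK1 hE1
  have h2 : K * E ≤ K * E * (K * E) * q := by nlinarith [Nat.mul_pos h1 (Nat.succ_le_iff.1 hq)]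
  have a1 : 4 * (K * E) * (K * E) * q + K * E ≤ 5 * (K * E * (K * E) * q) := by nlinarith
  have h3 : K ≤ P * K := Nat.le_mul_of_pos_left _ hP1
  have h4 : 1 ≤ P * K := Nat.mul_pos hP1 hK1
  have a2 : 3 * P * K + K + 1 ≤ 5 * (P * K) := by nlinarith
  have a3 := Nat.mul_le_mul a1 a2
  have e3 : 5 * (K * E * (K * E) * q) * (5 * (P * K)) = 25 * (K ^ 3 * E ^ 2 * q * P) := by ring
  have e4 : 13 * K ^ 3 * E ^ 2 * q * (2 * P) = 26 * (K ^ 3 * E ^ 2 * q * P) := by ring
  rw [e4]
  omega

theorem dim_pos (k e : ℕ) : 1 ≤ dim k e := Nat.mul_pos (Nat.succ_pos _) (Nat.succ_pos _)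

theorem lawMin {k e q n : ℕ} (hq : 1 ≤ q)
    (hn : 13 * (k + 1) ^ 3 * (e + 1) ^ 2 * q * 2 ^ (e + 1) ≤ n)
    {ρ : Type} [Fintype ρ] [DecidableEq ρ]
    (p : List (Instr (Tropical (WithTop ℝ)) (Fin n × Let) ρ)) (o : ρ)
    (hs : SolvesMin (Γ := Let) (mach k).language n p o) : 1 ≤ p.length ∧ (2 ^ dim k e) ^ kap q ≤
      2 * p.length * ((Nat.clog 2 p.length + 1) * Fintype.card ρ) ^ kap q := by
  have hn' := size_le hq hn
  have hne := fam_nonempty hn'
  obtain ⟨g1, g2⟩ := good_min hne hs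
  have hp := good_len hne g1
  exact ⟨hp, law (dim_pos k e) le_rfl hn' p o g1 g2 hp⟩

theorem lawSum {k e q n : ℕ} (hq : 1 ≤ q)
    (hn : 13 * (k + 1) ^ 3 * (e + 1) ^ 2 * q * 2 ^ (e + 1) ≤ n)
    {ρ : Type} [Fintype ρ] [DecidableEq ρ]
    (p : List (Instr ℝ≥0 (Fin n × Let) ρ)) (o : ρ)
    (hs : SolvesSum (Γ := Let) (mach k).language n p o) : 1 ≤ p.length ∧ (2 ^ dim k e) ^ kap q ≤
      2 * p.length * ((Nat.clog 2 p.length + 1) * Fintype.card ρ) ^ kap q := by
  have hn' := size_le hq hn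
  obtain ⟨g1, g2⟩ := good_sum hs
  have hp := good_len (fam_nonempty hn') g1
  exact ⟨hp, law (dim_pos k e) le_rfl hn' p o g1 g2 hp⟩

end Pool.Agent.TH679.KC
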