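import Mathlib

/-!
Real-time automata with counters
-/

set_option autoImplicit false

namespace Pool.Agent.TH679.KC

/-- A (nondeterministic) real-time automaton with `k` counters over the alphabet `Γ`, with the
states `Q`: if in the state `q` the letter `a` is read, and `z i` tells whether the counter `i` is
zero, then `step q z a` lists the possible moves: a new state and the changes of the counters. -/
structure Counters (k : ℕ) (Γ Q : Type) where
  /-- the initial state -/
  init : Q
  /-- the accepting states -/
  acc : Q → Bool
  /-- the moves -/
  step : Q → (Fin k → Bool) → Γ → List (Q × (Fin k → ℤ))

namespace Counters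

variable {k : ℕ} {Γ Q : Type} (M : Counters k Γ Q)

/-- From the state `q` with the values `c` of the counters the automaton can read the word and come
to an accepting state. (The counters are natural numbers: a move which would make one of them
negative is impossible.) -/
def Acc : Q → (Fin k → ℕ) → List Γ → Prop
  | q, _, [] => M.acc q = true
  | q, c, a :: w => ∃ x ∈ M.step q (fun i => c i == 0) a, ∃ c' : Fin k → ℕ,
      (∀ i, (c' i : ℤ) = c i + x.2 i) ∧ Acc x.1 c' w

/-- The language of the automaton: it starts in the initial state with all counters 0. -/
def language : Language Γ := {w | M.Acc M.init (fun _ => 0) w}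

/-- There is at most one move. -/
def Deterministic : Prop := ∀ q z a, (M.step q z a).length ≤ 1

/-- In each move at most one counter is changed, by at most 1. -/
def UnitSteps : Prop := ∀ q z a, ∀ x ∈ M.step q z a, ∃ j, ∀ i, |x.2 i| ≤ if i = j then 1 else 0

end Counters

end Pool.Agent.TH679.KC
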