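import Pool.Agent.TH679.KC.Machine

/-!
The scans of the counters
-/

set_option autoImplicit false

namespace Pool.Agent.TH679.KC

/-- `2 r` cells -/
def cells : ℕ → List Let
  | 0 => []
  | r + 1 => .n false :: .n true :: cells r

/-- the text which is read for one counter -/
def scan (H : ℕ) : List Let := cells H ++ List.replicate H .e

/-- the text which is read for `i + 1` counters -/
def scans (H : ℕ) : ℕ → List Let
  | 0 => scan H
  | i + 1 => scan H ++ (.sep :: scans H i)

theorem cells_length (r : ℕ) : (cells r).length = 2 * r := by
  induction r with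
  | zero => rfl
  | succ r ih => rw [cells, List.length_cons, List.length_cons, ih]; ring

theorem scan_length (H : ℕ) : (scan H).length = 3 * H := by
  unfold scan
  rw [List.length_append, cells_length, List.length_replicate]
  ring

theorem scans_length (H i : ℕ) : (scans H i).length = 3 * H * (i + 1) + i := by
  induction i with
  | zero => rw [scans, scan_length]; ring
  | succ i ih => rw [scans, List.length_append, List.length_cons, scan_length, ih]; ring

section Scan

variable {k : ℕ} {par a y s : Bool} {j : Fin (k + 1)}

theorem acc_count_cells : ∀ (r : ℕ) (c : Fin (k + 1) → ℕ) (w : List Let),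
    (mach k).Acc (.count par a y s j) c (cells r ++ w) ↔
      (mach k).Acc (.count par a y s j) (Function.update c j (c j + r)) w := by
  intro r
  induction r with
  | zero =>
    intro c w
    rw [add_zero, Function.update_eq_self]
    rfl
  | succ r ih =>
    intro c w
    rw [cells, List.cons_append, List.cons_append, acc_count_even, acc_count_odd, ih,
      Function.update_self, Function.update_idem]
    congr! 2
    ring

theorem acc_count_es : ∀ (r : ℕ) (c : Fin (k + 1) → ℕ) (w : List Let),
    (mach k).Acc (.count par a y s j) c (List.replicate r .e ++ w) ↔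
      (mach k).Acc (.count par a y s j)
        (Function.update c j (c j + if xor y (!par) then r else 0)) w := by
  intro r
  induction r with
  | zero =>
    intro c w
    rw [ite_self, add_zero, Function.update_eq_self]
    rfl
  | succ r ih =>
    intro c w
    rw [List.replicate_succ, List.cons_append, acc_count_e, ih,
      Function.update_self, Function.update_idem]
    congr! 2
    split_ifs <;> ring

theorem acc_search_cells : ∀ (r : ℕ) (c : Fin (k + 1) → ℕ) (w : List Let), c j < 2 * r →
    ((mach k).Acc (.search par a y j) c (cells r ++ w) ↔
      (mach k).Acc (.count par a y (decide (c j % 2 = 1)) j)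
        (Function.update c j (r - 1 - c j / 2)) w) := by
  intro r
  induction r with
  | zero => intro c w h; omega
  | succ r ih =>
    intro c w h
    rw [cells, List.cons_append, List.cons_append]
    rcases Nat.lt_or_ge (c j) 2 with h2 | h2
    · rcases Nat.lt_or_ge (c j) 1 with h1 | h1
      · have h0 : c j = 0 := by omega
        rw [acc_search_zero h0, acc_count_odd, acc_count_cells, h0]
        simp
      · have h0 : c j = 1 := by omega
        rw [acc_search_pos (by omega), acc_search_zero (by rw [Function.update_self, h0]),
          acc_count_cells, Function.update_self, Function.update_idem, h0]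
        simp
    · rw [acc_search_pos (by omega), acc_search_pos (by rw [Function.update_self]; omega),
        ih _ _ (by rw [Function.update_self, Function.update_self]; omega), Function.update_self,
        Function.update_self, Function.update_idem, Function.update_idem]
      have e1 : (c j - 1 - 1) % 2 = c j % 2 := by omega
      have e2 : r - 1 - (c j - 1 - 1) / 2 = r + 1 - 1 - c j / 2 := by omega
      rw [e1, e2]

/-- the new value of a counter -/
def nx (par y : Bool) (H c : ℕ) : ℕ := (H - 1 - c / 2) + if xor y (!par) then H else 0

theorem acc_scan (H : ℕ) (c : Fin (k + 1) → ℕ) (w : List Let) (h : c j < 2 * H) :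
    (mach k).Acc (.search par a y j) c (scan H ++ w) ↔
      (mach k).Acc (.count par a y (decide (c j % 2 = 1)) j)
        (Function.update c j (nx par y H (c j))) w := by
  unfold scan
  rw [List.append_assoc, acc_search_cells H c _ h, acc_count_es, Function.update_self,
    Function.update_idem]
  rfl

end Scan

/-! ### the numbers -/

/-- the number with the bits `v 0, ..., v (e - 1)`, the highest first -/
def num : ℕ → (ℕ → Bool) → ℕ
  | 0, _ => 0
  | e + 1, v => (if v 0 then 2 ^ e else 0) + num e fun i => v (i + 1)

theorem num_lt (e : ℕ) : ∀ v, num e v < 2 ^ e := by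
  induction e with
  | zero => intro v; simp [num]
  | succ e ih =>
    intro v
    have := ih fun i => v (i + 1)
    rw [num, pow_succ]
    split_ifs <;> omega

theorem num_last (e : ℕ) : ∀ v, num (e + 1) v = 2 * num e v + if v e then 1 else 0 := by
  induction e with
  | zero => intro v; simp [num]
  | succ e ih =>
    intro v
    rw [num, ih, num, pow_succ]
    split_ifs <;> omega

/-- the sequence with the additional first entry `a` -/
def push (a : Bool) (u : ℕ → Bool) : ℕ → Bool
  | 0 => a
  | i + 1 => u i

/-- the code of a number: itself or its complement -/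
def cod (par : Bool) (H N : ℕ) : ℕ := if par then 2 * H - 1 - N else N

theorem cod_lt {par : Bool} {H N : ℕ} (h : N < 2 * H) : cod par H N < 2 * H := by
  unfold cod
  split_ifs <;> omega

theorem nx_cod {par y : Bool} {H N : ℕ} (h : N < 2 * H) :
    nx par y H (cod par H N) = cod (!par) H ((if y then H else 0) + N / 2) := by
  unfold nx cod
  cases par <;> cases y <;> simp <;> omega

theorem par_cod {par : Bool} {H N : ℕ} (h : N < 2 * H) :
    xor (decide (cod par H N % 2 = 1)) par = decide (N % 2 = 1) := by
  unfold cod
  cases par
  · simp
  · simp only [if_true, Bool.xor_true]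
    rw [← decide_not]
    congr 1
    rw [eq_iff_iff]
    omega

theorem num_shift {e : ℕ} (v v' : ℕ → Bool) (h : ∀ i, v' (i + 1) = v i) :
    num (e + 1) v' = (if v' 0 then 2 ^ e else 0) + num (e + 1) v / 2 := by
  rw [num]
  have h1 : (fun i => v' (i + 1)) = v := funext h
  rw [h1, num_last e v]
  split_ifs <;> omega

theorem num_parity {e : ℕ} (v : ℕ → Bool) : decide (num (e + 1) v % 2 = 1) = v e := by
  rw [num_last e v]
  cases v e <;> simp

/-! ### one step -/

section Step

variable (k e : ℕ)

/-- the part of the sequence in the counter `j` -/
def part (j : ℕ) (u : ℕ → Bool) : ℕ → Bool := fun i => u (j * (e + 1) + i)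

/-- the counters: those before `j` contain already the new sequence -/
def cfg (par : Bool) (u u' : ℕ → Bool) (j : ℕ) : Fin (k + 1) → ℕ := fun l =>
  if l.val < j then cod (!par) (2 ^ e) (num (e + 1) (part e l.val u'))
  else cod par (2 ^ e) (num (e + 1) (part e l.val u))

variable {k e}

theorem cfg_update {par a : Bool} {u : ℕ → Bool} {j : Fin (k + 1)} :
    Function.update (cfg k e par u (push a u) j.val) j
      (nx par (push a u (j.val * (e + 1))) (2 ^ e) (cfg k e par u (push a u) j.val j)) =
      cfg k e par u (push a u) (j.val + 1) := by
  have hlt : num (e + 1) (part e j.val u) < 2 * 2 ^ e := by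
    have := num_lt (e + 1) (part e j.val u)
    rw [pow_succ] at this
    omega
  funext l
  by_cases hl : l = j
  · subst hl
    rw [Function.update_self]
    unfold cfg
    rw [if_neg (lt_irrefl _), if_pos (Nat.lt_succ_self _), nx_cod hlt]
    congr 1
    refine (num_shift (part e l.val u) (part e l.val (push a u)) ?_).symm
    intro i
    rfl
  · rw [Function.update_of_ne hl]
    unfold cfg
    have hl' : l.val ≠ j.val := fun h => hl (Fin.ext h)
    by_cases h1 : l.val < j.val
    · rw [if_pos h1, if_pos (by omega)]
    · rw [if_neg h1, if_neg (by omega)]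

theorem acc_one {par a : Bool} {u : ℕ → Bool} {j : Fin (k + 1)} {w : List Let} :
    ∃ s, xor s par = u (j.val * (e + 1) + e) ∧
      ((mach k).Acc (.search par a (push a u (j.val * (e + 1))) j)
        (cfg k e par u (push a u) j.val) (scan (2 ^ e) ++ w) ↔
      (mach k).Acc (.count par a (push a u (j.val * (e + 1))) s j)
        (cfg k e par u (push a u) (j.val + 1)) w) := by
  have hlt : num (e + 1) (part e j.val u) < 2 * 2 ^ e := by
    have := num_lt (e + 1) (part e j.val u)
    rw [pow_succ] at this
    omega
  have hc : cfg k e par u (push a u) j.val j =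
      cod par (2 ^ e) (num (e + 1) (part e j.val u)) := by
    unfold cfg
    rw [if_neg (lt_irrefl _)]
  refine ⟨decide (cfg k e par u (push a u) j.val j % 2 = 1), ?_, ?_⟩
  · rw [hc, par_cod hlt, num_parity]
    rfl
  · rw [acc_scan (2 ^ e) _ w (by rw [hc]; exact cod_lt hlt), cfg_update]

theorem acc_scans {par a a' b : Bool} {u : ℕ → Bool} {w : List Let} : ∀ (i : ℕ)
    (j : Fin (k + 1)), j.val + i = k →
    ((mach k).Acc (.search par a (push a u (j.val * (e + 1))) j)
        (cfg k e par u (push a u) j.val) (scans (2 ^ e) i ++ (.r a' b :: w)) ↔
      a' = a ∧ b = u (k * (e + 1) + e) ∧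
        (mach k).Acc (.wait (!par) a) (cfg k e par u (push a u) (k + 1)) w) := by
  intro i
  induction i with
  | zero =>
    intro j hj
    have hj' : j.val = k := by omega
    obtain ⟨s, h1, h2⟩ := acc_one (e := e) (par := par) (a := a) (u := u) (j := j)
      (w := .r a' b :: w)
    rw [scans, h2, acc_r hj', h1, hj']
  | succ i ih =>
    intro j hj
    obtain ⟨s, h1, h2⟩ := acc_one (e := e) (par := par) (a := a) (u := u) (j := j)
      (w := .sep :: (scans (2 ^ e) i ++ (.r a' b :: w)))
    rw [scans, List.append_assoc, List.cons_append, h2, acc_sep (by omega), h1]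
    have h3 := ih ⟨j.val + 1, by omega⟩ (by simp only; omega)
    have e1 : push a u ((j.val + 1) * (e + 1)) = u (j.val * (e + 1) + e) := by
      have : (j.val + 1) * (e + 1) = (j.val * (e + 1) + e) + 1 := by ring
      rw [this]
      rfl
    simp only at h3
    rw [e1] at h3
    exact h3

theorem acc_step {par x a b a' b' : Bool} {u : ℕ → Bool} {w : List Let} :
    (mach k).Acc (.wait par x) (cfg k e par u u 0)
        (.p a b :: (scans (2 ^ e) k ++ (.r a' b' :: w))) ↔
      b = x ∧ a' = a ∧ b' = u (k * (e + 1) + e) ∧
        (mach k).Acc (.wait (!par) a) (cfg k e (!par) (push a u) (push a u) 0) w := by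
  rw [acc_p]
  have h := acc_scans (e := e) (par := par) (a := a) (a' := a') (b := b') (u := u) (w := w) k
    (0 : Fin (k + 1)) (by simp)
  have e1 : cfg k e par u (push a u) (0 : Fin (k + 1)).val = cfg k e par u u 0 := by
    funext l
    unfold cfg
    simp
  have e2 : cfg k e par u (push a u) (k + 1) = cfg k e (!par) (push a u) (push a u) 0 := by
    funext l
    unfold cfg
    rw [if_pos l.2, if_neg (Nat.not_lt_zero _)]
  have e3 : push a u ((0 : Fin (k + 1)).val * (e + 1)) = a := by
    simp [push]
  rw [e1, e2, e3] at h
  rw [h]

end Step

end Pool.Agent.TH679.KC
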