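import Pool.Agent.TH679.KC.Scan
import Pool.Agent.TH679.LW.Pat
import Pool.Agent.TH679.CF.Strip

/-!
The words for the colorings of a strip
-/

set_option autoImplicit false

namespace Pool.Agent.TH679.KC

open Pool.Agent.TH679.SP (Pos lft rgt ce)
open Pool.Agent.TH679.CF (col)
open Pool.Agent.TH679.LW

/-- the colors of the vertices before `g`, the last one first -/
def seqAt (χ : ℕ → Bool) (g : ℕ) : ℕ → Bool := fun i => if i < g then χ (g - 1 - i) else false

theorem push_seqAt (χ : ℕ → Bool) (g : ℕ) : push (χ g) (seqAt χ g) = seqAt χ (g + 1) := by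
  funext i
  cases i with
  | zero => simp [push, seqAt]
  | succ i =>
    show seqAt χ g i = seqAt χ (g + 1) (i + 1)
    unfold seqAt
    by_cases h : i < g
    · rw [if_pos h, if_pos (by omega)]
      congr 1
      omega
    · rw [if_neg h, if_neg (by omega)]

theorem seqAt_congr {χ χ' : ℕ → Bool} {g : ℕ} (h : ∀ i < g, χ i = χ' i) :
    seqAt χ g = seqAt χ' g := by
  funext i
  unfold seqAt
  split_ifs with h1
  · exact h _ (by omega)
  · rfl

section Words

variable (S k e : ℕ)

/-- the number of the rows -/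
abbrev dim (k e : ℕ) : ℕ := (k + 1) * (e + 1)

/-- the variable of the edge from `g - 1` to `g` -/
def vp (g : ℕ) (b a : Bool) : Option (Pos S × Fin 2 × Fin 2) :=
  if h : 1 ≤ g ∧ g ≤ S then some (⟨⟨g - 1, by omega⟩, false⟩, col b, col a) else none

/-- the variable of the edge from `g - dim k e` to `g` -/
def vq (g : ℕ) (b a : Bool) : Option (Pos S × Fin 2 × Fin 2) :=
  if h : dim k e ≤ g ∧ g < S + dim k e then
    some (⟨⟨g - dim k e, by omega⟩, true⟩, col b, col a) else none

/-- what is allowed at the first position of a block -/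
def slotP (g : ℕ) : Slot Let (Pos S × Fin 2 × Fin 2)
  | .p a b => some (vp S g b a)
  | _ => none

/-- what is allowed at the last position of a block -/
def slotR (g : ℕ) : Slot Let (Pos S × Fin 2 × Fin 2)
  | .r a b => some (vq S k e g b a)
  | _ => none

/-- the pattern of the blocks for `g, ..., g + r - 1` -/
def pat : ℕ → ℕ → List (Slot Let (Pos S × Fin 2 × Fin 2))
  | _, 0 => []
  | g, r + 1 => slotP S g :: ((scans (2 ^ e) k).map forced ++ (slotR S k e g :: pat (g + 1) r))

/-- the word of a coloring -/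
def word (χ : ℕ → Bool) : ℕ → ℕ → List Let
  | _, 0 => []
  | g, r + 1 => .p (χ g) (seqAt χ g 0) :: (scans (2 ^ e) k ++
      (.r (χ g) (seqAt χ g (k * (e + 1) + e)) :: word χ (g + 1) r))

/-- the variables of a coloring -/
def cvs (χ : ℕ → Bool) : ℕ → ℕ → List (Pos S × Fin 2 × Fin 2)
  | _, 0 => []
  | g, r + 1 => (vp S g (seqAt χ g 0) (χ g)).toList ++
      ((vq S k e g (seqAt χ g (k * (e + 1) + e)) (χ g)).toList ++ cvs χ (g + 1) r)

variable {S k e}

theorem pat_length (r : ℕ) : ∀ g, (pat S k e g r).length =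
    r * (3 * 2 ^ e * (k + 1) + k + 2) := by
  induction r with
  | zero => intro g; simp [pat]
  | succ r ih =>
    intro g
    rw [pat, List.length_cons, List.length_append, List.length_map, scans_length,
      List.length_cons, ih]
    ring

theorem al_word (χ : ℕ → Bool) : ∀ (r g : ℕ), Al (pat S k e g r) (word k e χ g r) := by
  intro r
  induction r with
  | zero => intro g; exact List.Forall₂.nil
  | succ r ih =>
    intro g
    refine List.Forall₂.cons (by simp [slotP]) ?_
    refine (al_forced _).append ?_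
    exact List.Forall₂.cons (by simp [slotR]) (ih (g + 1))

theorem vars_word (χ : ℕ → Bool) : ∀ (r g : ℕ),
    vars (pat S k e g r) (word k e χ g r) = cvs S k e χ g r := by
  intro r
  induction r with
  | zero => intro g; rfl
  | succ r ih =>
    intro g
    show vr (slotP S g) (.p (χ g) (seqAt χ g 0)) ++ vars ((scans (2 ^ e) k).map forced ++
      (slotR S k e g :: pat S k e (g + 1) r)) (scans (2 ^ e) k ++
      (.r (χ g) (seqAt χ g (k * (e + 1) + e)) :: word k e χ (g + 1) r)) = _
    rw [vars_append _ _ _ _ (by simp), vars_forced, List.nil_append]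
    show _ ++ (vr (slotR S k e g) (.r (χ g) (seqAt χ g (k * (e + 1) + e))) ++
      vars (pat S k e (g + 1) r) (word k e χ (g + 1) r)) = _
    rw [ih]
    rfl

theorem acc_word (χ : ℕ → Bool) : ∀ (r g : ℕ) (par : Bool),
    (mach k).Acc (.wait par (seqAt χ g 0)) (cfg k e par (seqAt χ g) (seqAt χ g) 0)
      (word k e χ g r) := by
  intro r
  induction r with
  | zero => intro g par; exact acc_nil
  | succ r ih =>
    intro g par
    rw [word, acc_step, push_seqAt]
    refine ⟨rfl, rfl, rfl, ?_⟩
    have := ih (g + 1) (!par)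
    have e1 : seqAt χ (g + 1) 0 = χ g := by simp [seqAt]
    rw [e1] at this
    exact this

theorem slotP_ne {g : ℕ} {l : Let} (h : slotP S g l ≠ none) : ∃ a b, l = .p a b := by
  cases l with
  | p a b => exact ⟨a, b, rfl⟩
  | _ => exact absurd rfl h

theorem slotR_ne {g : ℕ} {l : Let} (h : slotR S k e g l ≠ none) : ∃ a b, l = .r a b := by
  cases l with
  | r a b => exact ⟨a, b, rfl⟩
  | _ => exact absurd rfl h

theorem word_inv : ∀ (r g : ℕ) (par : Bool) (χ : ℕ → Bool) (w : List Let),
    Al (pat S k e g r) w →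
    (mach k).Acc (.wait par (seqAt χ g 0)) (cfg k e par (seqAt χ g) (seqAt χ g) 0) w →
    ∃ χ' : ℕ → Bool, (∀ i < g, χ' i = χ i) ∧ w = word k e χ' g r := by
  intro r
  induction r with
  | zero =>
    intro g par χ w h _
    exact ⟨χ, fun _ _ => rfl, h.nil_inv⟩
  | succ r ih =>
    intro g par χ w h hA
    obtain ⟨l, w1, rfl, h1, h2⟩ := h.cons_inv
    obtain ⟨a, b, rfl⟩ := slotP_ne h1
    obtain ⟨u, w2, rfl, h3, h4⟩ := Al.split h2
    have hu := al_forced_inv h3
    subst hu
    obtain ⟨l, w3, rfl, h5, h6⟩ := h4.cons_inv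
    obtain ⟨a', b', rfl⟩ := slotR_ne h5
    rw [acc_step] at hA
    obtain ⟨rfl, rfl, rfl, hA⟩ := hA
    obtain ⟨χ₁, hχ₁⟩ : ∃ χ₁ : ℕ → Bool, χ₁ = Function.update χ g a' := ⟨_, rfl⟩
    have k1 : ∀ i < g, χ₁ i = χ i := by
      intro i hi
      rw [hχ₁, Function.update_of_ne (by omega)]
    have k2 : χ₁ g = a' := by
      rw [hχ₁, Function.update_self]
    have k3 : seqAt χ g = seqAt χ₁ g := seqAt_congr fun i hi => (k1 i hi).symm
    have k4 : push a' (seqAt χ g) = seqAt χ₁ (g + 1) := by
      rw [k3, ← k2, push_seqAt]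
    have k5 : a' = seqAt χ₁ (g + 1) 0 := by
      rw [← k4]
      rfl
    rw [k4] at hA
    rw [k5] at hA
    obtain ⟨χ', m1, m2⟩ := ih (g + 1) (!par) χ₁ w3 h6 hA
    have m3 : χ' g = a' := (m1 g (by omega)).trans k2
    have m4 : ∀ i < g, χ' i = χ i := fun i hi => (m1 i (by omega)).trans (k1 i hi)
    refine ⟨χ', m4, ?_⟩
    rw [word, m3, seqAt_congr m4, m2]

/-! ### the variables -/

/-- the variable of a coloring at an edge -/
def yv (k e : ℕ) (χ : ℕ → Bool) (x : Pos S) : Pos S × Fin 2 × Fin 2 :=
  (x, col (χ x.site.val), col (χ (x.site.val + if x.far then dim k e else 1)))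

/-- the time of an edge -/
def tm (k e : ℕ) (x : Pos S) : ℕ := x.site.val + if x.far then dim k e else 1

theorem seqAt_zero (χ : ℕ → Bool) {g : ℕ} (h : 1 ≤ g) : seqAt χ g 0 = χ (g - 1) := by
  unfold seqAt
  rw [if_pos (by omega)]
  rfl

theorem seqAt_last (χ : ℕ → Bool) {g : ℕ} (h : dim k e ≤ g) :
    seqAt χ g (k * (e + 1) + e) = χ (g - dim k e) := by
  have h1 : dim k e = k * (e + 1) + e + 1 := by
    unfold dim
    ring
  unfold seqAt
  rw [if_pos (by omega)]
  congr 1
  omega

theorem count_opt {Y : Type} [BEq Y] [LawfulBEq Y] [DecidableEq Y] (o : Option Y) (y : Y) :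
    o.toList.count y = if o = some y then 1 else 0 := by
  cases o with
  | none => simp
  | some z =>
    rw [Option.toList_some, List.count_singleton]
    by_cases h : z = y
    · subst h; simp
    · simp [h]

theorem vp_eq (χ : ℕ → Bool) (g : ℕ) (y : Pos S × Fin 2 × Fin 2) :
    vp S g (seqAt χ g 0) (χ g) = some y ↔
      (tm k e y.1 = g ∧ y.1.far = false) ∧ y = yv k e χ y.1 := by
  unfold vp
  by_cases h : 1 ≤ g ∧ g ≤ S
  · rw [dif_pos h, seqAt_zero χ h.1, Option.some_inj]
    constructor
    · rintro rfl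
      refine ⟨⟨?_, rfl⟩, ?_⟩
      · unfold tm
        simp
        omega
      · unfold yv
        simp only [Bool.false_eq_true, if_false]
        congr 4
        omega
    · rintro ⟨⟨h1, h2⟩, h3⟩
      obtain ⟨⟨⟨s, hs⟩, f⟩, α, β⟩ := y
      simp only at h2
      subst h2
      unfold tm at h1
      simp only [Bool.false_eq_true, if_false] at h1
      rw [h3]
      unfold yv
      simp only [Bool.false_eq_true, if_false]
      have e1 : g - 1 = s := by omega
      subst e1
      congr 4
      omega
  · rw [dif_neg h]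
    constructor
    · intro h'
      exact absurd h' (by simp)
    · rintro ⟨⟨h1, h2⟩, _⟩
      exfalso
      apply h
      have h4 := y.1.site.2
      unfold tm at h1
      rw [h2] at h1
      simp only [Bool.false_eq_true, if_false] at h1
      omega

theorem vq_eq (χ : ℕ → Bool) (g : ℕ) (y : Pos S × Fin 2 × Fin 2) :
    vq S k e g (seqAt χ g (k * (e + 1) + e)) (χ g) = some y ↔
      (tm k e y.1 = g ∧ y.1.far = true) ∧ y = yv k e χ y.1 := by
  unfold vq
  by_cases h : dim k e ≤ g ∧ g < S + dim k e
  · rw [dif_pos h, seqAt_last χ h.1, Option.some_inj]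
    constructor
    · rintro rfl
      refine ⟨⟨?_, rfl⟩, ?_⟩
      · unfold tm
        simp only [if_true]
        omega
      · unfold yv
        simp only [if_true]
        congr 4
        omega
    · rintro ⟨⟨h1, h2⟩, h3⟩
      obtain ⟨⟨⟨s, hs⟩, f⟩, α, β⟩ := y
      simp only at h2
      subst h2
      unfold tm at h1
      simp only [if_true] at h1
      rw [h3]
      unfold yv
      simp only [if_true]
      have e1 : g - dim k e = s := by omega
      subst e1
      congr 4
      omega
  · rw [dif_neg h]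
    constructor
    · intro h'
      exact absurd h' (by simp)
    · rintro ⟨⟨h1, h2⟩, _⟩
      exfalso
      apply h
      have h4 := y.1.site.2
      unfold tm at h1
      rw [h2] at h1
      simp only [if_true] at h1
      omega

theorem count_cvs (χ : ℕ → Bool) (y : Pos S × Fin 2 × Fin 2) : ∀ (r g : ℕ),
    (cvs S k e χ g r).count y =
      if (g ≤ tm k e y.1 ∧ tm k e y.1 < g + r) ∧ y = yv k e χ y.1 then 1 else 0 := by
  intro r
  induction r with
  | zero =>
    intro g
    rw [if_neg (by omega)]
    rfl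
  | succ r ih =>
    intro g
    rw [cvs, List.count_append, List.count_append, ih, count_opt, count_opt]
    simp only [vp_eq (k := k) (e := e), vq_eq]
    by_cases hy : y = yv k e χ y.1
    · simp only [← hy, and_true]
      by_cases ht : tm k e y.1 = g
      · cases hf : y.1.far
        · simp only [ht, true_and, and_true, Bool.false_eq_true, if_true, if_false]
          rw [if_neg (by omega), if_pos (by omega)]
        · simp only [ht, true_and, and_true, Bool.true_eq_false, if_true, if_false]
          rw [if_neg (by omega), if_pos (by omega)]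
      · rw [if_neg (fun h => ht h.1), if_neg (fun h => ht h.1)]
        by_cases h2 : g + 1 ≤ tm k e y.1 ∧ tm k e y.1 < g + 1 + r
        · rw [if_pos h2, if_pos (by omega)]
        · rw [if_neg h2, if_neg (by omega)]
    · rw [if_neg (fun h => hy h.2), if_neg (fun h => hy h.2), if_neg (fun h => hy h.2),
        if_neg (fun h => hy h.2)]

theorem count_full (hd : 1 ≤ dim k e) (χ : ℕ → Bool) (y : Pos S × Fin 2 × Fin 2) :
    (cvs S k e χ 0 (S + dim k e)).count y =
      if y = ce (lft (d := dim k e) hd) (rgt hd) (fun a => col (χ a.val)) y.1 then 1 else 0 := by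
  rw [count_cvs]
  have h1 : 0 ≤ tm k e y.1 ∧ tm k e y.1 < 0 + (S + dim k e) := by
    have := y.1.site.2
    unfold tm
    split_ifs <;> omega
  have h2 : yv k e χ y.1 = ce (lft (d := dim k e) hd) (rgt hd) (fun a => col (χ a.val)) y.1 := rfl
  rw [← h2]
  by_cases hy : y = yv k e χ y.1
  · rw [if_pos ⟨h1, hy⟩, if_pos hy]
  · rw [if_neg (fun h => hy h.2), if_neg hy]

end Words

end Pool.Agent.TH679.KC
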